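import Pool.Agent.W2helper91.SP.Sharp2

/-!
The maximum over all series-parallel graphs with `n` vertices of the minimum area of a poly-line
grid drawing is `n * 2 ^ ((1 + o(1)) * √(log n * log log n))`.
-/

set_option autoImplicit false

namespace Pool.Agent.Results.MP_68dca0_co.PolylineSharp

open Pool.Agent.W2helper91.SP Real Filter Asymptotics

theorem result :
    ((fun n : ℕ => logb 2 (Ap n / n)) ~[atTop]
      fun n : ℕ => √(logb 2 n * logb 2 (logb 2 n))) ∧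
    (∀ ε : ℝ, 0 < ε → ∀ᶠ n : ℕ in atTop,
      n * (2 : ℝ) ^ ((1 - ε) * √(logb 2 n * logb 2 (logb 2 n))) ≤ Ap n ∧
      (Ap n : ℝ) ≤ n * 2 ^ ((1 + ε) * √(logb 2 n * logb 2 (logb 2 n)))) ∧
    (∀ ε : ℝ, 0 < ε → ∀ᶠ n : ℕ in atTop, ∃ G : SimpleGraph (Fin n), SeriesParallel G ∧
      ∀ (D : PolylineDrawing G) (W H : ℕ), D.InBox W H →
        (2 : ℝ) ^ ((1 - ε) * √(logb 2 n * logb 2 (logb 2 n))) ≤ W ∧
        (2 : ℝ) ^ ((1 - ε) * √(logb 2 n * logb 2 (logb 2 n))) ≤ H ∧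
        n * (2 : ℝ) ^ ((1 - ε) * √(logb 2 n * logb 2 (logb 2 n))) ≤ W * H) ∧
    (∀ ε : ℝ, 0 < ε → ∀ᶠ n : ℕ in atTop, ∀ G : SimpleGraph (Fin n), SeriesParallel G →
      ∃ D : PolylineDrawing G, ∃ H : ℕ, D.InBox (2 * n) H ∧
        (H : ℝ) ≤ 2 ^ ((1 + ε) * √(logb 2 n * logb 2 (logb 2 n)))) ∧
    (∀ n : ℕ, 4 ≤ n → (Ap n : ℝ) ≤ n * 2 ^ (18 * √(logb 2 n * logb 2 (logb 2 n)))) ∧
    (∀ n : ℕ, 4 ≤ n → ∀ G : SimpleGraph (Fin n), SeriesParallel G →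
      ∃ D : PolylineDrawing G, ∃ H : ℕ, D.InBox (2 * n) H ∧
        (H : ℝ) ≤ 2 ^ (17 * √(logb 2 n * logb 2 (logb 2 n)))) := by
  refine ⟨equivalent, fun ε h0 => ?_, fun ε h0 => ev_hard' h0, fun ε h0 => ev_drawing' h0,
    Ap_le, fun n hn G hG => exists_small_drawing n hn G hG⟩
  filter_upwards [ev_le_Ap h0, ev_Ap_le' h0] with n h1 h2
  exact ⟨h1, h2⟩

end Pool.Agent.Results.MP_68dca0_co.PolylineSharp
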