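import Pool.Agent.W2helper91.SP.Straight2

/-!
For all large `n` there is a series-parallel graph with `n` vertices such that every straight-line
grid drawing has area at least `n * 2 ^ ((1 - ε) * √(log n * log log n))`.
-/

set_option autoImplicit false

namespace Pool.Agent.Results.MP_68dca0_co.StraightSharp

open Pool.Agent.W2helper91.SP Real Filter

theorem result :
    (∀ ε : ℝ, 0 < ε → ∀ᶠ n : ℕ in atTop,
      ((⌈n * (2 : ℝ) ^ ((1 - ε) * √(logb 2 n * logb 2 (logb 2 n)))⌉₊ : ℕ) : ℕ∞) ≤ As n) ∧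
    (∀ ε : ℝ, 0 < ε → ∀ᶠ n : ℕ in atTop, ∃ G : SimpleGraph (Fin n),
      SeriesParallel G ∧ ∀ (D : StraightDrawing G) (W H : ℕ), D.InBox W H →
        (2 : ℝ) ^ ((1 - ε) * √(logb 2 n * logb 2 (logb 2 n))) ≤ W ∧
        (2 : ℝ) ^ ((1 - ε) * √(logb 2 n * logb 2 (logb 2 n))) ≤ H ∧
        n * (2 : ℝ) ^ ((1 - ε) * √(logb 2 n * logb 2 (logb 2 n))) ≤ W * H) :=
  ⟨fun _ h0 => ev_le_As h0, fun _ h0 => ev_hard_straight h0⟩

end Pool.Agent.Results.MP_68dca0_co.StraightSharp
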